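import Pool.Agent.Run7.h325.RSI.Stm

set_option autoImplicit false

namespace Pool.Agent.Run7.h547.RSI

open MeasureTheory Filter Topology Metric
open Pool.Agent.Run7.h325.RSI

noncomputable section

theorem r0_le {m : ℕ} (hm : 1 ≤ m) : r0 m ≤ 1 / 16 := by
  have h1 : (1 : ℝ) ≤ m := by exact_mod_cast hm
  unfold r0
  apply one_div_le_one_div_of_le (by norm_num)
  linarith

theorem meas_UV (hG : S_GRP) {m : ℕ} (hm : 1 ≤ m) : Measurable (U m) ∧ Measurable (V m) := by
  obtain ⟨-, -, -, -, h⟩ := hG m hm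
  exact ⟨h.comp (continuous_infDist_pt _).measurable, h.comp (continuous_infDist_pt _).measurable⟩

theorem t_A2 : S_RAD → S_GRP → S_A2LOC → S_LAT → S_LARGE → S_A2 := by
  intro hRAD hG hLOC hLAT hLARGE m hm
  obtain ⟨hU, hV⟩ := meas_UV hG hm
  obtain ⟨h1, -, -, h4, -⟩ := hG m hm
  obtain ⟨-, -, hvol⟩ := hRAD
  have hm1 : (1 : ℝ) ≤ m := by exact_mod_cast hm
  have hm4 : (1 : ℝ) ≤ (m : ℝ) ^ 4 := one_le_pow₀ hm1
  have U1 : ∀ x, 1 ≤ U m x := fun x => h1 _
  have V1 : ∀ x, 1 ≤ V m x := fun x => h1 _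
  have U0 : ∀ x, 0 < U m x := fun x => lt_of_lt_of_le one_pos (U1 x)
  have V0 : ∀ x, 0 < V m x := fun x => lt_of_lt_of_le one_pos (V1 x)
  have w0 : ∀ x, 0 < wt m x := fun x => div_pos (U0 x) (V0 x)
  have hw : Measurable (wt m) := hU.div hV
  have hwi : Measurable (fun y => (wt m y)⁻¹) := hw.inv
  refine ⟨hw, w0, ?_⟩
  intro x r hr
  have hb : (volume (ball x r)).toReal = Real.pi * r ^ 2 := hvol x r hr.le
  have hP : 0 ≤ (Real.pi * r ^ 2) ^ 2 := by positivity
  rw [hb]
  by_cases hr16 : 1 / 16 ≤ r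
  · obtain ⟨⟨iU, bU⟩, ⟨iV, bV⟩⟩ := hLARGE m hm x r hr16
    have le1 : ∀ y, wt m y ≤ U m y := fun y => div_le_self (U0 y).le (V1 y)
    have le2 : ∀ y, (wt m y)⁻¹ ≤ V m y := by
      intro y
      unfold wt
      rw [inv_div]
      exact div_le_self (V0 y).le (U1 y)
    have i1 : IntegrableOn (wt m) (ball x r) := by
      refine Integrable.mono' iU hw.aestronglyMeasurable ?_
      refine Eventually.of_forall fun y => ?_
      rw [Real.norm_of_nonneg (w0 y).le]
      exact le1 y
    have i2 : IntegrableOn (fun y => (wt m y)⁻¹) (ball x r) := by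
      refine Integrable.mono' iV hwi.aestronglyMeasurable ?_
      refine Eventually.of_forall fun y => ?_
      rw [Real.norm_of_nonneg (inv_nonneg.2 (w0 y).le)]
      exact le2 y
    refine ⟨i1, i2, ?_⟩
    have b1 : ∫ y in ball x r, wt m y ≤ 5 * (m : ℝ) ^ 2 * (Real.pi * r ^ 2) :=
      (setIntegral_mono i1 iU le1).trans bU
    have b2 : ∫ y in ball x r, (wt m y)⁻¹ ≤ 5 * (m : ℝ) ^ 2 * (Real.pi * r ^ 2) :=
      (setIntegral_mono i2 iV le2).trans bV
    have n2 : 0 ≤ ∫ y in ball x r, (wt m y)⁻¹ :=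
      setIntegral_nonneg measurableSet_ball fun y _ => inv_nonneg.2 (w0 y).le
    calc (∫ y in ball x r, wt m y) * (∫ y in ball x r, (wt m y)⁻¹)
        ≤ (5 * (m : ℝ) ^ 2 * (Real.pi * r ^ 2)) * (5 * (m : ℝ) ^ 2 * (Real.pi * r ^ 2)) :=
          mul_le_mul b1 b2 n2 (by positivity)
      _ = 25 * (m : ℝ) ^ 4 * (Real.pi * r ^ 2) ^ 2 := by ring
  · push Not at hr16
    have hr0 := r0_le hm
    obtain ⟨neF, neW, hF, hW⟩ := hLAT
    have key : ∀ (a y₀ y : E2), y₀ ∈ ball x r → y ∈ ball x r → dist y₀ a < r0 m → ‖y - a‖ ≤ 1 / 4 := by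
      intro a y₀ y h₀ h₁ h₂
      rw [mem_ball] at h₀ h₁
      have : dist y a ≤ dist y x + dist x y₀ + dist y₀ a := dist_triangle4 y x y₀ a
      rw [dist_comm x y₀] at this
      rw [← dist_eq_norm]
      linarith
    by_cases c1 : ∃ y₀ ∈ ball x r, infDist y₀ Zf < r0 m
    · obtain ⟨y₀, hy₀, hd⟩ := c1
      obtain ⟨a, ha, had⟩ := (infDist_lt_iff neF).1 hd
      have e1 : ∀ y ∈ ball x r, wt m y = (Gr m ‖y - a‖)⁻¹ := by
        intro y hy
        obtain ⟨q1, q2⟩ := hF a ha y (key a y₀ y hy₀ hy had)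
        have : U m y = 1 := h4 _ (by linarith)
        unfold wt
        rw [this]
        unfold V
        rw [q1, one_div]
      have e2 : ∀ y ∈ ball x r, (wt m y)⁻¹ = Gr m ‖y - a‖ := by
        intro y hy
        rw [e1 y hy, inv_inv]
      obtain ⟨j1, j2, j3⟩ := hLOC m hm a x r hr
      refine ⟨j2.congr_fun (fun y hy => (e1 y hy).symm) measurableSet_ball,
        j1.congr_fun (fun y hy => (e2 y hy).symm) measurableSet_ball, ?_⟩
      rw [setIntegral_congr_fun measurableSet_ball e1, setIntegral_congr_fun measurableSet_ball e2, mul_comm]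
      refine j3.trans ?_
      apply mul_le_mul_of_nonneg_right _ hP
      linarith
    · push Not at c1
      by_cases c2 : ∃ y₀ ∈ ball x r, infDist y₀ Zw < r0 m
      · obtain ⟨y₀, hy₀, hd⟩ := c2
        obtain ⟨a, ha, had⟩ := (infDist_lt_iff neW).1 hd
        have e1 : ∀ y ∈ ball x r, wt m y = Gr m ‖y - a‖ := by
          intro y hy
          obtain ⟨q1, q2⟩ := hW a ha y (key a y₀ y hy₀ hy had)
          have : V m y = 1 := h4 _ (by linarith)
          unfold wt
          rw [this]
          unfold U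
          rw [q1, div_one]
        have e2 : ∀ y ∈ ball x r, (wt m y)⁻¹ = (Gr m ‖y - a‖)⁻¹ := by
          intro y hy
          rw [e1 y hy]
        obtain ⟨j1, j2, j3⟩ := hLOC m hm a x r hr
        refine ⟨j1.congr_fun (fun y hy => (e1 y hy).symm) measurableSet_ball,
          j2.congr_fun (fun y hy => (e2 y hy).symm) measurableSet_ball, ?_⟩
        rw [setIntegral_congr_fun measurableSet_ball e1, setIntegral_congr_fun measurableSet_ball e2]
        refine j3.trans ?_
        apply mul_le_mul_of_nonneg_right _ hP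
        linarith
      · push Not at c2
        have e1 : ∀ y ∈ ball x r, wt m y = (fun _ => (1 : ℝ)) y := by
          intro y hy
          have hu : U m y = 1 := h4 _ (c2 y hy)
          have hv : V m y = 1 := h4 _ (c1 y hy)
          unfold wt
          rw [hu, hv, div_one]
        have e2 : ∀ y ∈ ball x r, (wt m y)⁻¹ = (fun _ => (1 : ℝ)) y := by
          intro y hy
          rw [e1 y hy]
          simp
        have ic : IntegrableOn (fun _ : E2 => (1 : ℝ)) (ball x r) :=
          integrableOn_const measure_ball_lt_top.ne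
        refine ⟨ic.congr_fun (fun y hy => (e1 y hy).symm) measurableSet_ball,
          ic.congr_fun (fun y hy => (e2 y hy).symm) measurableSet_ball, ?_⟩
        rw [setIntegral_congr_fun measurableSet_ball e1, setIntegral_congr_fun measurableSet_ball e2]
        have : ∫ _y in ball x r, (1 : ℝ) = Real.pi * r ^ 2 := by
          rw [setIntegral_const, smul_eq_mul, mul_one]
          exact hb
        rw [this, ← sq]
        have : (1 : ℝ) * (Real.pi * r ^ 2) ^ 2 ≤ 25 * (m : ℝ) ^ 4 * (Real.pi * r ^ 2) ^ 2 := by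
          apply mul_le_mul_of_nonneg_right _ hP
          linarith
        linarith

end

end Pool.Agent.Run7.h547.RSI
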