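import Pool.Agent.Run7.h325.RSI.Stm

set_option autoImplicit false

namespace Pool.Agent.Run7.h547.RSI

open MeasureTheory Filter Topology Metric
open Pool.Agent.Run7.h325.RSI

noncomputable section

theorem card_DD (m : ℕ) : ((DD m).card : ℝ) = 64 * (4 : ℝ) ^ (m ^ 4) := by
  unfold DD
  rw [Finset.card_product, Int.card_Ico]
  have e : (4 * 2 ^ (m ^ 4) - -(4 * 2 ^ (m ^ 4)) : ℤ).toNat = 8 * 2 ^ (m ^ 4) := by
    have : (4 * 2 ^ (m ^ 4) - -(4 * 2 ^ (m ^ 4)) : ℤ) = ((8 * 2 ^ (m ^ 4) : ℕ) : ℤ) := by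
      push_cast
      ring
    rw [this, Int.toNat_natCast]
  rw [e]
  push_cast
  have : (4 : ℝ) ^ (m ^ 4) = 2 ^ (m ^ 4) * 2 ^ (m ^ 4) := by
    rw [← mul_pow]; norm_num
  rw [this]
  ring

theorem Dhat_ne (m : ℕ) : (Dhat m).Nonempty := by
  refine ⟨_, (0, 0), ?_, rfl⟩
  have h : (0 : ℤ) < 4 * 2 ^ (m ^ 4) := by positivity
  unfold DD
  rw [Finset.mem_product, Finset.mem_Ico]
  exact ⟨⟨by simp only; omega, h⟩, ⟨by simp only; omega, h⟩⟩

/-- the union of small balls along the directions -/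
def BB (m : ℕ) : Set E2 :=
  ⋃ p ∈ DD m, ⋃ k ∈ Finset.range (1024 * 4 ^ (m ^ 4)), ball ((1 + (k : ℝ) * hh m) • (‖zz p‖⁻¹ • zz p)) (3 * hh m)

theorem hh_pos (m : ℕ) : 0 < hh m := by unfold hh; positivity

theorem vol_BB (hR : S_RAD) (m : ℕ) :
    volume (BB m) ≤ ENNReal.ofReal (64 * (4 : ℝ) ^ (m ^ 4) * ((1024 * 4 ^ (m ^ 4)) * (Real.pi * (3 * hh m) ^ 2))) := by
  obtain ⟨-, -, hvol⟩ := hR
  have hv : ∀ x : E2, volume (ball x (3 * hh m)) = ENNReal.ofReal (Real.pi * (3 * hh m) ^ 2) := by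
    intro x
    rw [← hvol x (3 * hh m) (by have := hh_pos m; positivity), ENNReal.ofReal_toReal measure_ball_lt_top.ne]
  unfold BB
  calc volume (⋃ p ∈ DD m, ⋃ k ∈ Finset.range (1024 * 4 ^ (m ^ 4)),
        ball ((1 + (k : ℝ) * hh m) • (‖zz p‖⁻¹ • zz p)) (3 * hh m))
      ≤ ∑ p ∈ DD m, volume (⋃ k ∈ Finset.range (1024 * 4 ^ (m ^ 4)),
        ball ((1 + (k : ℝ) * hh m) • (‖zz p‖⁻¹ • zz p)) (3 * hh m)) := measure_biUnion_finset_le _ _
    _ ≤ ∑ p ∈ DD m, ∑ k ∈ Finset.range (1024 * 4 ^ (m ^ 4)),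
        volume (ball ((1 + (k : ℝ) * hh m) • (‖zz p‖⁻¹ • zz p)) (3 * hh m)) :=
        Finset.sum_le_sum fun p _ => measure_biUnion_finset_le _ _
    _ = ∑ p ∈ DD m, ∑ k ∈ Finset.range (1024 * 4 ^ (m ^ 4)), ENNReal.ofReal (Real.pi * (3 * hh m) ^ 2) := by
        simp only [hv]
    _ = ENNReal.ofReal (∑ p ∈ DD m, ∑ k ∈ Finset.range (1024 * 4 ^ (m ^ 4)), (Real.pi * (3 * hh m) ^ 2)) := by
        rw [ENNReal.ofReal_sum_of_nonneg]
        · refine Finset.sum_congr rfl fun p _ => ?_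
          rw [ENNReal.ofReal_sum_of_nonneg]
          intro k _
          positivity
        · intro p _
          exact Finset.sum_nonneg fun k _ => by positivity
    _ = _ := by
        congr 1
        rw [Finset.sum_const, Finset.sum_const, Finset.card_range, nsmul_eq_mul, nsmul_eq_mul, card_DD]
        push_cast
        ring

theorem mem_BB (m : ℕ) (y : E2) (hy : y ∈ Ann) (h : Psi m (‖y‖⁻¹ • y) ≠ 0) : y ∈ BB m := by
  obtain ⟨y1, y2⟩ := hy
  have hp := hh_pos m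
  have h1 : infDist (‖y‖⁻¹ • y) (Dhat m) < hh m := by
    by_contra hc
    push Not at hc
    apply h
    unfold Psi
    apply max_eq_left
    have : 1 ≤ infDist (‖y‖⁻¹ • y) (Dhat m) / hh m := (one_le_div hp).2 hc
    linarith
  obtain ⟨v, ⟨p, hpD, rfl⟩, hd⟩ := (infDist_lt_iff (Dhat_ne m)).1 h1
  have hK : (0 : ℝ) < 1024 * 4 ^ (m ^ 4) := by positivity
  have hKh : (1024 * 4 ^ (m ^ 4) : ℝ) * hh m = 1 := by
    unfold hh
    field_simp
  unfold BB
  simp only [Set.mem_iUnion]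
  set t := ‖y‖ with ht
  have ht0 : t ≠ 0 := by linarith
  set k := ⌊(t - 1) * (1024 * 4 ^ (m ^ 4))⌋₊ with hk
  have hk1 : (k : ℝ) ≤ (t - 1) * (1024 * 4 ^ (m ^ 4)) := Nat.floor_le (by nlinarith)
  have hk2 : (t - 1) * (1024 * 4 ^ (m ^ 4)) < k + 1 := Nat.lt_floor_add_one _
  have hkK : k < 1024 * 4 ^ (m ^ 4) := by
    have : (k : ℝ) < ((1024 * 4 ^ (m ^ 4) : ℕ) : ℝ) := by
      push_cast
      nlinarith
    exact_mod_cast this
  refine ⟨p, hpD, k, Finset.mem_range.2 hkK, ?_⟩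
  rw [mem_ball]
  set v : E2 := ‖zz p‖⁻¹ • zz p with hv
  have hvn : ‖v‖ ≤ 1 := by
    rw [hv, norm_smul, norm_inv, norm_norm]
    exact inv_mul_le_one
  have ey : y = t • (t⁻¹ • y) := by rw [smul_smul, mul_inv_cancel₀ ht0, one_smul]
  have d1 : dist y (t • v) < 2 * hh m := by
    have : dist y (t • v) = t * dist (t⁻¹ • y) v := by
      conv_lhs => rw [ey]
      rw [dist_smul₀, Real.norm_of_nonneg (by linarith)]
    rw [this]
    have := dist_nonneg (x := t⁻¹ • y) (y := v)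
    nlinarith
  have e1 : (k : ℝ) * hh m ≤ t - 1 := by
    calc (k : ℝ) * hh m ≤ ((t - 1) * (1024 * 4 ^ (m ^ 4))) * hh m := mul_le_mul_of_nonneg_right hk1 hp.le
      _ = (t - 1) * ((1024 * 4 ^ (m ^ 4)) * hh m) := by ring
      _ = t - 1 := by rw [hKh, mul_one]
  have e2 : t - 1 ≤ (k : ℝ) * hh m + hh m := by
    calc t - 1 = (t - 1) * ((1024 * 4 ^ (m ^ 4)) * hh m) := by rw [hKh, mul_one]
      _ = ((t - 1) * (1024 * 4 ^ (m ^ 4))) * hh m := by ring
      _ ≤ (k + 1) * hh m := mul_le_mul_of_nonneg_right hk2.le hp.le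
      _ = (k : ℝ) * hh m + hh m := by ring
  have d2 : dist (t • v) ((1 + (k : ℝ) * hh m) • v) ≤ hh m := by
    rw [dist_eq_norm, ← sub_smul, norm_smul, Real.norm_eq_abs]
    have : |t - (1 + (k : ℝ) * hh m)| ≤ hh m := by
      rw [abs_le]
      constructor <;> linarith
    calc |t - (1 + (k : ℝ) * hh m)| * ‖v‖ ≤ hh m * 1 := mul_le_mul this hvn (norm_nonneg _) hp.le
      _ = hh m := mul_one _
  calc dist y ((1 + (k : ℝ) * hh m) • v) ≤ dist y (t • v) + dist (t • v) ((1 + (k : ℝ) * hh m) • v) :=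
        dist_triangle _ _ _
    _ < 2 * hh m + hh m := by linarith
    _ = 3 * hh m := by ring

theorem vol_Ann (hR : S_RAD) : 3 * Real.pi ≤ (volume Ann).toReal := by
  obtain ⟨-, -, hvol⟩ := hR
  have hsub : ball (0 : E2) 2 ⊆ Ann ∪ closedBall 0 1 := by
    intro y hy
    rw [mem_ball_zero_iff] at hy
    by_cases h : 1 < ‖y‖
    · exact Or.inl ⟨h, hy⟩
    · right
      rw [mem_closedBall_zero_iff]
      linarith
  have hA : volume Ann ≠ ⊤ := by
    refine ne_top_of_le_ne_top (measure_ball_lt_top (μ := (volume : Measure E2)) (x := 0) (r := 2)).ne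
      (measure_mono ?_)
    intro y hy
    rw [mem_ball_zero_iff]
    exact hy.2
  have hc : (volume (closedBall (0 : E2) 1)) = volume (ball (0 : E2) 1) :=
    Measure.addHaar_closedBall_eq_addHaar_ball _ _ _
  have hle : volume (ball (0 : E2) 2) ≤ volume Ann + volume (ball (0 : E2) 1) := by
    rw [← hc]
    exact (measure_mono hsub).trans (measure_union_le _ _)
  have h2 : (volume (ball (0 : E2) 2)).toReal ≤ (volume Ann).toReal + (volume (ball (0 : E2) 1)).toReal := by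
    rw [← ENNReal.toReal_add hA measure_ball_lt_top.ne]
    exact ENNReal.toReal_mono (ENNReal.add_ne_top.2 ⟨hA, measure_ball_lt_top.ne⟩) hle
  rw [hvol 0 2 (by norm_num), hvol 0 1 (by norm_num)] at h2
  nlinarith

theorem t_CM : S_PSI → S_RAD → S_CM := by
  intro hPSI hR m hm
  obtain ⟨-, p0, p1, -⟩ := hPSI m hm
  have hV := vol_Ann hR
  have hpi := Real.pi_pos
  have hVp : 0 < (volume Ann).toReal := by linarith
  have n0 : 0 ≤ ∫ y in Ann, Psi m (‖y‖⁻¹ • y) := integral_nonneg fun y => p0 _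
  refine ⟨div_nonneg n0 hVp.le, ?_⟩
  have mB : MeasurableSet (BB m) := by
    unfold BB
    refine Finset.measurableSet_biUnion _ fun p _ => Finset.measurableSet_biUnion _ fun k _ => measurableSet_ball
  have fB : volume (BB m) ≠ ⊤ := ne_top_of_le_ne_top ENNReal.ofReal_ne_top (vol_BB hR m)
  have iB : Integrable ((BB m).indicator (fun _ => (1 : ℝ))) volume :=
    (integrable_indicator_iff mB).2 (integrableOn_const fB)
  have mAnn : MeasurableSet Ann := by
    have : Ann = {y : E2 | 1 < ‖y‖} ∩ {y | ‖y‖ < 2} := rfl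
    rw [this]
    exact (isOpen_lt continuous_const continuous_norm).measurableSet.inter
      (isOpen_lt continuous_norm continuous_const).measurableSet
  have b1 : ∫ y in Ann, Psi m (‖y‖⁻¹ • y) ≤ ∫ y in Ann, (BB m).indicator (fun _ => (1 : ℝ)) y := by
    apply integral_mono_of_nonneg
    · exact Eventually.of_forall fun y => p0 _
    · exact iB.integrableOn
    · refine (ae_restrict_iff' mAnn).2 (Eventually.of_forall fun y hy => ?_)
      by_cases h : Psi m (‖y‖⁻¹ • y) = 0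
      · simp only
        rw [h]
        exact Set.indicator_nonneg (fun _ _ => zero_le_one) _
      · simp only
        rw [Set.indicator_of_mem (mem_BB m y hy h)]
        exact p1 _
  have b2 : ∫ y in Ann, (BB m).indicator (fun _ => (1 : ℝ)) y ≤ ∫ y, (BB m).indicator (fun _ => (1 : ℝ)) y :=
    setIntegral_le_integral iB (Eventually.of_forall fun y => Set.indicator_nonneg (fun _ _ => zero_le_one) _)
  have b3 : ∫ y, (BB m).indicator (fun _ => (1 : ℝ)) y = (volume (BB m)).toReal := by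
    rw [integral_indicator mB, setIntegral_const, smul_eq_mul, mul_one]
    rfl
  have b4 : (volume (BB m)).toReal ≤ 9 * Real.pi / 16 := by
    have h0 : (0 : ℝ) ≤ 64 * (4 : ℝ) ^ (m ^ 4) * ((1024 * 4 ^ (m ^ 4)) * (Real.pi * (3 * hh m) ^ 2)) := by
      positivity
    have h1 := ENNReal.toReal_mono ENNReal.ofReal_ne_top (vol_BB hR m)
    rw [ENNReal.toReal_ofReal h0] at h1
    refine h1.trans (le_of_eq ?_)
    unfold hh
    have : (4 : ℝ) ^ (m ^ 4) ≠ 0 := by positivity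
    field_simp
    norm_num
  unfold mean
  rw [div_le_iff₀ hVp]
  calc ∫ y in Ann, Psi m (‖y‖⁻¹ • y) ≤ 9 * Real.pi / 16 := by linarith
    _ ≤ 1 / 4 * (3 * Real.pi) := by linarith
    _ ≤ 1 / 4 * (volume Ann).toReal := by linarith

end

end Pool.Agent.Run7.h547.RSI
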